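import Pool.Agent.Helper6.W.Defs

/-! Packet W1: the switching count for closed trajectories which cross an edge exactly once. -/

namespace Pool.Agent.Helper47.W

open Equiv Pool.Agent.Helper6.W

variable {n : ℕ}

/-- label of a position before the crossing at time `t` -/
def lbl (y : Perm (Fin n)) (t : ℕ) (u : Fin n) : Fin n := if Even t then u else y⁻¹ u

theorem lab_eq (y : Perm (Fin n)) (Z : ℕ → Perm (Fin n)) (t : ℕ) (p : Fin n) :
    lab y Z t p = lbl y t (pos y Z t p) := by
  unfold lab lbl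
  split_ifs <;> simp

theorem pos_succ (y : Perm (Fin n)) (Z : ℕ → Perm (Fin n)) (t : ℕ) (p : Fin n) :
    pos y Z (t + 1) p = Z t (cr y t (pos y Z t p)) := by
  simp [pos]

theorem lbl_swap (y : Perm (Fin n)) (a c : Fin n) (t : ℕ) (u : Fin n)
    (h1 : lbl y t u ≠ a) (h2 : lbl y t u ≠ c) : lbl (y * swap a c) t u = lbl y t u := by
  unfold lbl at *
  split_ifs with h
  · rfl
  · simp only [h, if_false] at h1 h2
    simp only [mul_inv_rev, swap_inv, Perm.coe_mul, Function.comp_apply]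
    exact swap_apply_of_ne_of_ne h1 h2

theorem cr_swap (y : Perm (Fin n)) (a c : Fin n) (t : ℕ) (u : Fin n)
    (h1 : lbl y t u ≠ a) (h2 : lbl y t u ≠ c) : cr (y * swap a c) t u = cr y t u := by
  unfold lbl at *
  unfold cr
  split_ifs with h
  · simp only [h, if_true] at h1 h2
    simp only [Perm.coe_mul, Function.comp_apply]
    rw [swap_apply_of_ne_of_ne h1 h2]
  · simp only [h, if_false] at h1 h2
    simp only [mul_inv_rev, swap_inv, Perm.coe_mul, Function.comp_apply]
    exact swap_apply_of_ne_of_ne h1 h2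

theorem pos_swap (y : Perm (Fin n)) (Z : ℕ → Perm (Fin n)) (a c : Fin n) (q : Fin n) (s : ℕ)
    (h1 : ∀ t < s, lab y Z t q ≠ a) (h2 : ∀ t < s, lab y Z t q ≠ c) :
    ∀ t ≤ s, pos (y * swap a c) Z t q = pos y Z t q := by
  intro t
  induction t with
  | zero => intro _; simp [pos]
  | succ t ih =>
    intro ht
    rw [pos_succ, pos_succ, ih (by omega)]
    congr 1
    exact cr_swap y a c t _ (by rw [← lab_eq]; exact h1 t (by omega))
      (by rw [← lab_eq]; exact h2 t (by omega))

theorem lab_swap (y : Perm (Fin n)) (Z : ℕ → Perm (Fin n)) (a c : Fin n) (q : Fin n) (s : ℕ)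
    (h1 : ∀ t < s, lab y Z t q ≠ a) (h2 : ∀ t < s, lab y Z t q ≠ c) :
    ∀ t < s, lab (y * swap a c) Z t q = lab y Z t q := by
  intro t ht
  rw [lab_eq, lab_eq, pos_swap y Z a c q s h1 h2 t ht.le]
  exact lbl_swap y a c t _ (by rw [← lab_eq]; exact h1 t ht) (by rw [← lab_eq]; exact h2 t ht)

/-- the injectivity of the switching -/
theorem inj_key (Z : ℕ → Perm (Fin n)) (T t0 : ℕ) (ht0 : t0 < T) (p : Fin n)
    (y1 y2 : Perm (Fin n)) (c1 c2 : Fin n)
    (hc1 : pos y1 Z T p = p) (hc2 : pos y2 Z T p = p)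
    (ho1 : ∀ t' < T, t' ≠ t0 → lab y1 Z t' p ≠ lab y1 Z t0 p)
    (ho2 : ∀ t' < T, t' ≠ t0 → lab y2 Z t' p ≠ lab y2 Z t0 p)
    (hn1 : ∀ t < T, lab y1 Z t p ≠ c1) (hn2 : ∀ t < T, lab y2 Z t p ≠ c2)
    (he : y1 * swap (lab y1 Z t0 p) c1 = y2 * swap (lab y2 Z t0 p) c2) :
    y1 = y2 ∧ c1 = c2 := by
  -- forward
  have hf : pos y1 Z t0 p = pos y2 Z t0 p := by
    have e1 := pos_swap y1 Z (lab y1 Z t0 p) c1 p t0
      (fun t ht => ho1 t (by omega) (by omega)) (fun t ht => hn1 t (by omega)) t0 le_rfl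
    have e2 := pos_swap y2 Z (lab y2 Z t0 p) c2 p t0
      (fun t ht => ho2 t (by omega) (by omega)) (fun t ht => hn2 t (by omega)) t0 le_rfl
    rw [← e1, ← e2, he]
  -- backward
  have hb : ∀ k, t0 + 1 + k ≤ T → pos y1 Z (T - k) p = pos y2 Z (T - k) p := by
    intro k
    induction k with
    | zero => intro _; simp only [Nat.sub_zero]; rw [hc1, hc2]
    | succ k ih =>
      intro hk
      have e := ih (by omega)
      have e3 : T - k = (T - (k + 1)) + 1 := by omega
      rw [e3, pos_succ, pos_succ] at e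
      have e4 := (Z (T - (k + 1))).injective e
      set t := T - (k + 1) with ht
      have a1 := cr_swap y1 (lab y1 Z t0 p) c1 t (pos y1 Z t p)
        (by rw [← lab_eq]; exact ho1 t (by omega) (by omega))
        (by rw [← lab_eq]; exact hn1 t (by omega))
      have a2 := cr_swap y2 (lab y2 Z t0 p) c2 t (pos y2 Z t p)
        (by rw [← lab_eq]; exact ho2 t (by omega) (by omega))
        (by rw [← lab_eq]; exact hn2 t (by omega))
      rw [← a1, ← a2, ← he] at e4
      exact (cr (y1 * swap (lab y1 Z t0 p) c1) t).injective e4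
  have hb1 : pos y1 Z (t0 + 1) p = pos y2 Z (t0 + 1) p := by
    have := hb (T - (t0 + 1)) (by omega)
    have e : T - (T - (t0 + 1)) = t0 + 1 := by omega
    rwa [e] at this
  rw [pos_succ, pos_succ] at hb1
  have hcr := (Z t0).injective hb1
  rw [← hf] at hcr
  -- equality of the labels
  have hab : lab y1 Z t0 p = lab y2 Z t0 p ∧ y1 (lab y1 Z t0 p) = y2 (lab y1 Z t0 p) := by
    rw [lab_eq, lab_eq, ← hf]
    unfold cr at hcr
    unfold lbl
    by_cases h : Even t0
    · simp only [h, if_true] at hcr ⊢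
      exact ⟨trivial, hcr⟩
    · simp only [h, if_false] at hcr ⊢
      refine ⟨hcr, ?_⟩
      have e1 : y1 (y1⁻¹ (pos y1 Z t0 p)) = pos y1 Z t0 p := y1.apply_symm_apply _
      have e2 : y2 (y2⁻¹ (pos y1 Z t0 p)) = pos y1 Z t0 p := y2.apply_symm_apply _
      rw [e1, hcr, e2]
  obtain ⟨hA, hB⟩ := hab
  have hc : c1 = c2 := by
    have e1 := congrArg (fun g : Perm (Fin n) => g c1) he
    simp only [Perm.coe_mul, Function.comp_apply, swap_apply_right] at e1
    rw [hB, hA] at e1
    have e2 := y2.injective e1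
    -- `a = swap a c2 c1`
    have e3 := congrArg (swap (lab y2 Z t0 p) c2) e2
    rw [swap_apply_left, swap_apply_self] at e3
    exact e3.symm
  refine ⟨?_, hc⟩
  rw [hA, hc] at he
  exact mul_right_cancel he

open Classical in
/-- the set counted in `once_count` -/
noncomputable def OS (Z : ℕ → Perm (Fin n)) (T f : ℕ) (ps : Fin f → Fin n) :
    Finset (Perm (Fin n)) :=
  Finset.univ.filter fun y => (∀ i, pos y Z T (ps i) = ps i) ∧
      (∀ i j, i ≠ j → Apart y Z T (ps i) (ps j)) ∧ ∀ i, Once y Z T (ps i)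

open Classical in
/-- the set of labels -/
noncomputable def LS (Z : ℕ → Perm (Fin n)) (T f : ℕ) (ps : Fin f → Fin n)
    (y : Perm (Fin n)) : Finset (Fin n) :=
  (Finset.univ ×ˢ Finset.range T).image fun q : Fin f × ℕ => lab y Z q.2 (ps q.1)

theorem LS_card (Z : ℕ → Perm (Fin n)) (T f : ℕ) (ps : Fin f → Fin n) (y : Perm (Fin n)) :
    (LS Z T f ps y).card ≤ f * T := by
  unfold LS
  refine Finset.card_image_le.trans ?_
  simp

theorem step (Z : ℕ → Perm (Fin n)) (T f : ℕ) (ps : Fin (f + 1) → Fin n) :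
    (OS Z T (f + 1) ps).card * (n - (f + 1) * T) ≤
      T * (OS Z T f (fun i => ps i.castSucc)).card := by
  classical
  set p := ps (Fin.last f) with hp
  have hex : ∀ y ∈ OS Z T (f + 1) ps, ∃ t < T, ∀ t' < T, t' ≠ t → lab y Z t' p ≠ lab y Z t p := by
    intro y hy
    have := (Finset.mem_filter.1 hy).2.2.2 (Fin.last f)
    exact this
  choose! τ hτ1 hτ2 using hex
  set S := (OS Z T (f + 1) ps).sigma fun y => Finset.univ \ LS Z T (f + 1) ps y with hS
  have hcard : (OS Z T (f + 1) ps).card * (n - (f + 1) * T) ≤ S.card := by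
    rw [hS, Finset.card_sigma, ← smul_eq_mul]
    apply Finset.card_nsmul_le_sum
    intro y _
    have h1 := Finset.le_card_sdiff (LS Z T (f + 1) ps y) (Finset.univ : Finset (Fin n))
    have h2 := LS_card Z T (f + 1) ps y
    rw [Finset.card_univ, Fintype.card_fin] at h1
    omega
  refine hcard.trans ?_
  have hT : T * (OS Z T f (fun i => ps i.castSucc)).card =
      ((OS Z T f (fun i => ps i.castSucc)) ×ˢ Finset.range T).card := by
    rw [Finset.card_product, Finset.card_range, mul_comm]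
  rw [hT]
  have hlab : ∀ s ∈ S, ∀ i : Fin (f + 1), ∀ t < T, lab s.1 Z t (ps i) ≠ s.2 := by
    intro s hs i t ht h
    rw [hS, Finset.mem_sigma, Finset.mem_sdiff] at hs
    apply hs.2.2
    unfold LS
    rw [Finset.mem_image]
    exact ⟨(i, t), by simp [ht], h⟩
  refine Finset.card_le_card_of_injOn
    (fun s => (s.1 * swap (lab s.1 Z (τ s.1) p) s.2, τ s.1)) ?_ ?_
  · intro s hs
    have hs' := hs
    rw [Finset.mem_coe, hS, Finset.mem_sigma] at hs'
    have hy := hs'.1
    have hlt := hτ1 s.1 hy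
    rw [Finset.mem_coe, Finset.mem_product]
    refine ⟨?_, by simpa using hlt⟩
    obtain ⟨h1, h2, h3⟩ := (Finset.mem_filter.1 hy).2
    have hav : ∀ i : Fin f, ∀ t < T, lab s.1 Z t (ps i.castSucc) ≠ lab s.1 Z (τ s.1) p := by
      intro i t ht
      exact h2 i.castSucc (Fin.last f) (Fin.castSucc_lt_last i).ne t ht (τ s.1) hlt
    have hP : ∀ i : Fin f, ∀ t ≤ T, pos (s.1 * swap (lab s.1 Z (τ s.1) p) s.2) Z t
        (ps i.castSucc) = pos s.1 Z t (ps i.castSucc) := fun i =>
      pos_swap s.1 Z _ _ _ T (hav i) (hlab s (Finset.mem_coe.1 hs) i.castSucc)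
    have hL : ∀ i : Fin f, ∀ t < T, lab (s.1 * swap (lab s.1 Z (τ s.1) p) s.2) Z t
        (ps i.castSucc) = lab s.1 Z t (ps i.castSucc) := fun i =>
      lab_swap s.1 Z _ _ _ T (hav i) (hlab s (Finset.mem_coe.1 hs) i.castSucc)
    unfold OS
    rw [Finset.mem_filter]
    refine ⟨Finset.mem_univ _, ?_, ?_, ?_⟩
    · intro i
      show pos (s.1 * swap (lab s.1 Z (τ s.1) p) s.2) Z T (ps i.castSucc) = ps i.castSucc
      rw [hP i T le_rfl]
      exact h1 i.castSucc
    · intro i j hij t ht t' ht'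
      show lab (s.1 * swap (lab s.1 Z (τ s.1) p) s.2) Z t (ps i.castSucc) ≠
        lab (s.1 * swap (lab s.1 Z (τ s.1) p) s.2) Z t' (ps j.castSucc)
      rw [hL i t ht, hL j t' ht']
      exact h2 i.castSucc j.castSucc (fun h => hij (Fin.castSucc_injective f h)) t ht t' ht'
    · intro i
      obtain ⟨t, ht, h⟩ := h3 i.castSucc
      refine ⟨t, ht, ?_⟩
      intro t' ht' hne
      show lab (s.1 * swap (lab s.1 Z (τ s.1) p) s.2) Z t' (ps i.castSucc) ≠
        lab (s.1 * swap (lab s.1 Z (τ s.1) p) s.2) Z t (ps i.castSucc)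
      rw [hL i t' ht', hL i t ht]
      exact h t' ht' hne
  · intro s hs s' hs' he
    have hsm := Finset.mem_coe.1 hs
    have hsm' := Finset.mem_coe.1 hs'
    have hs1 := (Finset.mem_sigma.1 hsm).1
    have hs1' := (Finset.mem_sigma.1 hsm').1
    simp only [Prod.mk.injEq] at he
    obtain ⟨he1, he2⟩ := he
    have hk := inj_key Z T (τ s.1) (hτ1 s.1 hs1) p s.1 s'.1 s.2 s'.2
      ((Finset.mem_filter.1 hs1).2.1 (Fin.last f)) ((Finset.mem_filter.1 hs1').2.1 (Fin.last f))
      (hτ2 s.1 hs1) (by rw [he2]; exact hτ2 s'.1 hs1')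
      (hlab s hsm (Fin.last f)) (hlab s' hsm' (Fin.last f))
      (by rw [he1, he2])
    exact Sigma.ext hk.1 (heq_of_eq hk.2)

theorem OS_count (Z : ℕ → Perm (Fin n)) (T : ℕ) : ∀ (f : ℕ) (ps : Fin f → Fin n),
    (OS Z T f ps).card * (n - f * T) ^ f ≤ T ^ f * n.factorial := by
  intro f
  induction f with
  | zero =>
    intro ps
    simp only [pow_zero, mul_one, one_mul]
    refine (Finset.card_le_univ _).trans ?_
    rw [Fintype.card_perm, Fintype.card_fin]
  | succ f ih =>
    intro ps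
    have h1 := step Z T f ps
    have h2 := ih (fun i => ps i.castSucc)
    have h3 : n - (f + 1) * T ≤ n - f * T := by
      apply Nat.sub_le_sub_left
      exact Nat.mul_le_mul_right T (Nat.le_succ f)
    calc (OS Z T (f + 1) ps).card * (n - (f + 1) * T) ^ (f + 1)
        = ((OS Z T (f + 1) ps).card * (n - (f + 1) * T)) * (n - (f + 1) * T) ^ f := by ring
      _ ≤ (T * (OS Z T f (fun i => ps i.castSucc)).card) * (n - f * T) ^ f :=
          Nat.mul_le_mul h1 (Nat.pow_le_pow_left h3 f)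
      _ = T * ((OS Z T f (fun i => ps i.castSucc)).card * (n - f * T) ^ f) := by ring
      _ ≤ T * (T ^ f * n.factorial) := Nat.mul_le_mul_left T h2
      _ = T ^ (f + 1) * n.factorial := by ring

theorem once_count {n : ℕ} (Z : ℕ → Perm (Fin n)) (T f : ℕ) (ps : Fin f → Fin n)
    (_h : f * T ≤ n) :
    Nat.card {y : Perm (Fin n) // (∀ i, pos y Z T (ps i) = ps i) ∧
      (∀ i j, i ≠ j → Apart y Z T (ps i) (ps j)) ∧ ∀ i, Once y Z T (ps i)} *
        (n - f * T) ^ f ≤ T ^ f * n.factorial := by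
  classical
  have e : Nat.card {y : Perm (Fin n) // (∀ i, pos y Z T (ps i) = ps i) ∧
      (∀ i j, i ≠ j → Apart y Z T (ps i) (ps j)) ∧ ∀ i, Once y Z T (ps i)} =
      (OS Z T f ps).card := by
    rw [Nat.card_eq_fintype_card, Fintype.card_subtype]
    unfold OS
    congr
  rw [e]
  exact OS_count Z T f ps

end Pool.Agent.Helper47.W
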